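import Mathlib

set_option autoImplicit false

namespace Pool.Agent.Results.MP_9f93d5_co.LazyHamming

open Finset

/-! ### The lazy game -/

section Defs

variable {V : Type}

/-- A turn of the lazy cops: at most one cop moves, to an adjacent vertex. -/
def LazyStep (G : SimpleGraph V) {k : ℕ} (c c' : Fin k → V) : Prop :=
  c' = c ∨ ∃ (a : Fin k) (v : V), G.Adj (c a) v ∧ c' = Function.update c a v

/-- With the cops on `c`, the robber on `r` and the cops to move, `k` lazy cops can force a capture
within `m` rounds. -/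
def LazyCatchWithin (G : SimpleGraph V) (k : ℕ) : ℕ → (Fin k → V) → V → Prop
  | 0, c, r => ∃ a, c a = r
  | m + 1, c, r =>
      (∃ a, c a = r) ∨
        ∃ c' : Fin k → V, LazyStep G c c' ∧
          ((∃ a, c' a = r) ∨ ∀ r', (r' = r ∨ G.Adj r r') → LazyCatchWithin G k m c' r')

/-- `k` lazy cops win on `G`. -/
def LazyCopsWin (G : SimpleGraph V) (k : ℕ) : Prop :=
  ∃ c : Fin k → V, ∀ r : V, ∃ m, LazyCatchWithin G k m c r

/-- The lazy cop number. -/
noncomputable def lazyCopNumber (G : SimpleGraph V) : ℕ := sInf {k | LazyCopsWin G k}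

end Defs

/-- The graph `K_q □ K_q □ K_q`: triples over `Fin q`, adjacent when they differ in exactly one
coordinate. -/
def cube (q : ℕ) : SimpleGraph (Fin 3 → Fin q) where
  Adj x y := ∃ i, x i ≠ y i ∧ ∀ j, j ≠ i → x j = y j
  symm := ⟨fun _ _ ⟨i, h, h'⟩ => ⟨i, h.symm, fun j hj => (h' j hj).symm⟩⟩
  loopless := ⟨fun _ ⟨_, h, _⟩ => h rfl⟩

lemma adj_update {q : ℕ} (x : Fin 3 → Fin q) (j : Fin 3) (w : Fin q) (h : x j ≠ w) :
    (cube q).Adj x (Function.update x j w) := by
  refine ⟨j, by simpa using h, fun i hi => by simp [hi]⟩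

lemma reach_update {q : ℕ} (x : Fin 3 → Fin q) (j : Fin 3) (w : Fin q) :
    (cube q).Reachable x (Function.update x j w) := by
  by_cases h : x j = w
  · subst h; rw [Function.update_eq_self]
  · exact (adj_update x j w h).reachable

lemma cube_connected {q : ℕ} (hq : 0 < q) : (cube q).Connected := by
  rw [SimpleGraph.connected_iff_exists_forall_reachable]
  refine ⟨fun _ => ⟨0, hq⟩, fun y => ?_⟩
  have h := ((reach_update (fun _ => (⟨0, hq⟩ : Fin q)) 0 (y 0)).trans
    (reach_update _ 1 (y 1))).trans (reach_update _ 2 (y 2))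
  have : Function.update (Function.update (Function.update (fun _ => (⟨0, hq⟩ : Fin q)) 0 (y 0))
      1 (y 1)) 2 (y 2) = y := by
    ext i
    fin_cases i <;> simp [Function.update]
  rwa [this] at h

/-! ### The robber evades -/

section Evade

variable {q K B : ℕ}

/-- number of cops whose coordinate `j` equals `v` -/
def plane (c : Fin K → Fin 3 → Fin q) (j : Fin 3) (v : Fin q) : Finset (Fin K) :=
  univ.filter fun a => c a j = v

lemma pick (hK : K < (q - 2 * B) * (B + 1)) (c : Fin K → Fin 3 → Fin q) (j : Fin 3)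
    (T : Finset (Fin K)) (hT : T.card ≤ 2 * B) :
    ∃ v : Fin q, (plane c j v).card ≤ B ∧ ∀ b ∈ T, c b j ≠ v := by
  by_contra hcon
  push Not at hcon
  set bad : Finset (Fin q) := T.image fun b => c b j with hbad
  have hbadc : bad.card ≤ 2 * B := le_trans Finset.card_image_le hT
  have hgood : q - 2 * B ≤ (univ \ bad).card := by
    rw [Finset.card_sdiff_of_subset (Finset.subset_univ _), Finset.card_univ, Fintype.card_fin]
    omega
  have h1 : ∀ v ∈ univ \ bad, B + 1 ≤ (plane c j v).card := by
    intro v hv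
    rw [Finset.mem_sdiff] at hv
    by_contra hlt
    push Not at hlt
    obtain ⟨b, hb, hbv⟩ := hcon v (by omega)
    exact hv.2 (Finset.mem_image.2 ⟨b, hb, hbv⟩)
  have h2 : (univ \ bad).card * (B + 1) ≤ ∑ v ∈ univ \ bad, (plane c j v).card := by
    rw [← smul_eq_mul]
    exact Finset.card_nsmul_le_sum _ _ _ h1
  have h3 : ∑ v ∈ univ \ bad, (plane c j v).card ≤ ∑ v, (plane c j v).card :=
    Finset.sum_le_sum_of_subset (Finset.subset_univ _)
  have h4 : ∑ v, (plane c j v).card = K := by
    have := Finset.card_eq_sum_card_fiberwise (f := fun a : Fin K => c a j)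
      (s := univ) (t := univ) (fun _ _ => Finset.mem_coe.2 (Finset.mem_univ _))
    rw [Finset.card_univ, Fintype.card_fin] at this
    exact this.symm
  have h5 : (q - 2 * B) * (B + 1) ≤ (univ \ bad).card * (B + 1) := Nat.mul_le_mul_right _ hgood
  omega

/-- The robber's invariant. -/
def Inv (B : ℕ) (c : Fin K → Fin 3 → Fin q) (r : Fin 3 → Fin q) : Prop :=
  (∀ a i j, i ≠ j → c a i = r i → c a j ≠ r j) ∧ ∀ i, (plane c i (r i)).card ≤ B

lemma others (j : Fin 3) : ∃ i i' : Fin 3, i ≠ j ∧ i' ≠ j ∧ i ≠ i' ∧ ∀ l, l ≠ j → l = i ∨ l = i' := by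
  fin_cases j
  · exact ⟨1, 2, by decide, by decide, by decide, by decide⟩
  · exact ⟨0, 2, by decide, by decide, by decide, by decide⟩
  · exact ⟨0, 1, by decide, by decide, by decide, by decide⟩

lemma not_caught {c : Fin K → Fin 3 → Fin q} {r : Fin 3 → Fin q} (h : Inv B c r) (a : Fin K) :
    c a ≠ r := by
  intro hEq
  exact h.1 a 0 1 (by decide) (by rw [hEq]) (by rw [hEq])

lemma step (hK : K < (q - 2 * B) * (B + 1)) {c c' : Fin K → Fin 3 → Fin q} {r : Fin 3 → Fin q}
    (h : Inv B c r) (hc : LazyStep (cube q) c c') :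
    (∀ a, c' a ≠ r) ∧ ∃ r', (r' = r ∨ (cube q).Adj r r') ∧ Inv B c' r' := by
  rcases hc with rfl | ⟨a, v, ⟨j, hvj, hv⟩, rfl⟩
  · exact ⟨not_caught h, r, Or.inl rfl, h⟩
  obtain ⟨i₁, i₂, hi₁, hi₂, hne, hall⟩ := others j
  -- outside coordinate `j` nothing has changed
  have hsame : ∀ b i, i ≠ j → Function.update c a v b i = c b i := by
    intro b i hi
    by_cases hb : b = a
    · subst hb; simp [hv i hi]
    · simp [hb]
  have hcaught : ∀ b, Function.update c a v b ≠ r := by
    intro b hEq
    have e1 : c b i₁ = r i₁ := by rw [← hsame b i₁ hi₁, hEq]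
    have e2 : c b i₂ = r i₂ := by rw [← hsame b i₂ hi₂, hEq]
    exact h.1 b i₁ i₂ hne e1 e2
  refine ⟨hcaught, ?_⟩
  have hplane : ∀ i, i ≠ j → plane (Function.update c a v) i (r i) = plane c i (r i) := by
    intro i hi
    unfold plane
    ext b
    simp only [Finset.mem_filter, Finset.mem_univ, true_and]
    rw [hsame b i hi]
  by_cases hr : v j = r j
  · -- a cop has entered the plane of the robber: he changes coordinate `j`
    obtain ⟨w, hw1, hw2⟩ := pick hK (Function.update c a v) j
      (plane c i₁ (r i₁) ∪ plane c i₂ (r i₂)) (by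
        refine le_trans (Finset.card_union_le _ _) ?_
        have := h.2 i₁
        have := h.2 i₂
        omega)
    refine ⟨Function.update r j w, ?_, ?_, ?_⟩
    · by_cases hw : r j = w
      · left; subst hw; rw [Function.update_eq_self]
      · right; exact adj_update r j w hw
    · -- agreement in at most one coordinate
      have hT : ∀ b i, i ≠ j → Function.update c a v b i = r i → Function.update c a v b j ≠ w := by
        intro b i hi hbi
        apply hw2
        rw [hsame b i hi] at hbi
        rw [Finset.mem_union]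
        rcases hall i hi with rfl | rfl
        · left; simp [plane, hbi]
        · right; simp [plane, hbi]
      intro b i i' hii' hb
      by_cases hij : i = j
      · subst hij
        rw [Function.update_self] at hb
        rw [Function.update_of_ne hii'.symm]
        intro hb'
        exact hT b i' hii'.symm hb' hb
      · rw [Function.update_of_ne hij] at hb
        by_cases hi'j : i' = j
        · subst hi'j
          rw [Function.update_self]
          exact hT b i hij hb
        · rw [Function.update_of_ne hi'j, hsame b i' hi'j]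
          rw [hsame b i hij] at hb
          exact h.1 b i i' hii' hb
    · intro i
      by_cases hij : i = j
      · subst hij
        rw [Function.update_self]
        exact hw1
      · rw [Function.update_of_ne hij, hplane i hij]
        exact h.2 i
  · -- the robber stays
    refine ⟨r, Or.inl rfl, ?_, ?_⟩
    · intro b i i' hii' hb
      have hle : ∀ l, Function.update c a v b l = r l → c b l = r l := by
        intro l hl
        by_cases hlj : l = j
        · subst hlj
          by_cases hba : b = a
          · subst hba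
            rw [Function.update_self] at hl
            exact absurd hl hr
          · rwa [Function.update_of_ne hba] at hl
        · rwa [hsame b l hlj] at hl
      intro hb'
      exact h.1 b i i' hii' (hle i hb) (hle i' hb')
    · intro i
      by_cases hij : i = j
      · subst hij
        refine le_trans (Finset.card_le_card ?_) (h.2 i)
        intro b hb
        simp only [plane, Finset.mem_filter, Finset.mem_univ, true_and] at hb ⊢
        by_cases hba : b = a
        · subst hba
          rw [Function.update_self] at hb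
          exact absurd hb hr
        · rwa [Function.update_of_ne hba] at hb
      · rw [hplane i hij]
        exact h.2 i

lemma evade (hK : K < (q - 2 * B) * (B + 1)) (m : ℕ) :
    ∀ (c : Fin K → Fin 3 → Fin q) (r : Fin 3 → Fin q), Inv B c r →
      ¬ LazyCatchWithin (cube q) K m c r := by
  induction m with
  | zero =>
    rintro c r h ⟨a, ha⟩
    exact not_caught h a ha
  | succ m ih =>
    rintro c r h (⟨a, ha⟩ | ⟨c', hc', hh⟩)
    · exact not_caught h a ha
    · obtain ⟨h1, r', hr', h2⟩ := step hK h hc'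
      rcases hh with ⟨a, ha⟩ | hh
      · exact h1 a ha
      · exact ih c' r' h2 (hh r' hr')

lemma start (hK : K < (q - 2 * B) * (B + 1)) (c : Fin K → Fin 3 → Fin q) :
    ∃ r, Inv B c r := by
  obtain ⟨v0, h0, -⟩ := pick hK c 0 ∅ (by simp)
  obtain ⟨v1, h1, h1'⟩ := pick hK c 1 (plane c 0 v0) (by omega)
  obtain ⟨v2, h2, h2'⟩ := pick hK c 2 (plane c 0 v0 ∪ plane c 1 v1)
    (le_trans (Finset.card_union_le _ _) (by omega))
  have e01 : ∀ a, c a 0 = v0 → c a 1 ≠ v1 := fun a ha => h1' a (by simp [plane, ha])
  have e02 : ∀ a, c a 0 = v0 → c a 2 ≠ v2 := fun a ha => h2' a (by simp [plane, ha])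
  have e12 : ∀ a, c a 1 = v1 → c a 2 ≠ v2 := fun a ha => h2' a (by simp [plane, ha])
  refine ⟨![v0, v1, v2], ?_, ?_⟩
  · intro a i j hij hi hj
    fin_cases i <;> fin_cases j
    · exact hij rfl
    · exact e01 a hi hj
    · exact e02 a hi hj
    · exact e01 a hj hi
    · exact hij rfl
    · exact e12 a hi hj
    · exact e02 a hj hi
    · exact e12 a hj hi
    · exact hij rfl
  · intro i
    fin_cases i
    · exact h0
    · exact h1
    · exact h2

end Evade

lemma lazyWin_nonempty {V : Type} [Fintype V] (G : SimpleGraph V) :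
    {k | LazyCopsWin G k}.Nonempty := by
  refine ⟨Fintype.card V, (Fintype.equivFin V).symm, fun r => ⟨0, Fintype.equivFin V r, by simp⟩⟩

/-- Lower bound for the lazy cop number of `K_q □ K_q □ K_q`. -/
theorem lt_lazyCopNumber_cube {q K B : ℕ} (hK : K < (q - 2 * B) * (B + 1)) :
    K < lazyCopNumber (cube q) := by
  by_contra hcon
  push Not at hcon
  obtain ⟨c, hc⟩ := Nat.sInf_mem (lazyWin_nonempty (cube q))
  have hK' : lazyCopNumber (cube q) < (q - 2 * B) * (B + 1) := lt_of_le_of_lt hcon hK
  obtain ⟨r, hr⟩ := start (B := B) hK' c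
  obtain ⟨m, hm⟩ := hc r
  exact evade hK' m c r hr hm

/-- For every `k ≥ 561` there is a connected graph on `n ≤ k ^ 2 + Δ` (indeed `n ≤ k ^ 2`) vertices
whose lazy cop number exceeds `k`. -/
theorem result : ∀ k : ℕ, 561 ≤ k →
    ∃ (V : Type) (_ : Fintype V) (G : SimpleGraph V) (_ : DecidableRel G.Adj),
      G.Connected ∧ Fintype.card V ≤ G.maxDegree + k ^ 2 ∧ k < lazyCopNumber G := by
  classical
  intro k hk
  -- the largest `m` with `64 m ^ 3 ≤ k ^ 2`
  obtain ⟨m, hm1, hm2⟩ : ∃ m : ℕ, 64 * m ^ 3 ≤ k ^ 2 ∧ k ^ 2 < 64 * (m + 1) ^ 3 := by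
    have hex : ∃ m : ℕ, k ^ 2 < 64 * (m + 1) ^ 3 := by
      refine ⟨k, ?_⟩
      have : k ^ 2 ≤ k ^ 3 ∨ k = 0 := by
        rcases Nat.eq_zero_or_pos k with h | h
        · right; exact h
        · left; exact Nat.pow_le_pow_right h (by norm_num)
      have h3 : k ^ 3 ≤ (k + 1) ^ 3 := Nat.pow_le_pow_left (Nat.le_succ k) 3
      have h4 : 0 < (k + 1) ^ 3 := by positivity
      rcases this with h | h
      · omega
      · subst h; norm_num
    refine ⟨Nat.find hex, ?_, Nat.find_spec hex⟩
    rcases Nat.eq_zero_or_pos (Nat.find hex) with h | h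
    · rw [h]; simp
    · obtain ⟨l, hl⟩ : ∃ l, Nat.find hex = l + 1 := ⟨Nat.find hex - 1, by omega⟩
      have := Nat.find_min hex (m := l) (by omega)
      push Not at this
      rw [hl]
      exact this
  have hm17 : 17 ≤ m := by
    by_contra hcon
    push Not at hcon
    have h1 : (m + 1) ^ 3 ≤ 17 ^ 3 := Nat.pow_le_pow_left (by omega) 3
    have h2 : 561 ^ 2 ≤ k ^ 2 := Nat.pow_le_pow_left hk 2
    norm_num at h1 h2
    omega
  have hcard : Fintype.card (Fin 3 → Fin (4 * m)) = 64 * m ^ 3 := by
    rw [Fintype.card_fun, Fintype.card_fin, Fintype.card_fin]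
    ring
  refine ⟨Fin 3 → Fin (4 * m), inferInstance, cube (4 * m), Classical.decRel _,
    cube_connected (by omega), ?_, ?_⟩
  · rw [hcard]; omega
  · apply lt_lazyCopNumber_cube (B := m)
    have e1 : 4 * m - 2 * m = 2 * m := by omega
    rw [e1]
    by_contra hcon
    push Not at hcon
    have h1 : (2 * m * (m + 1)) ^ 2 ≤ k ^ 2 := Nat.pow_le_pow_left hcon 2
    have h2 : (2 * m * (m + 1)) ^ 2 < 64 * (m + 1) ^ 3 := lt_of_le_of_lt h1 hm2
    have h3 : 64 * (m + 1) ^ 3 ≤ (2 * m * (m + 1)) ^ 2 := by
      have h4 : 16 * (m + 1) ≤ m ^ 2 := by nlinarith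
      calc 64 * (m + 1) ^ 3 = 4 * (m + 1) ^ 2 * (16 * (m + 1)) := by ring
        _ ≤ 4 * (m + 1) ^ 2 * m ^ 2 := Nat.mul_le_mul_left _ h4
        _ = (2 * m * (m + 1)) ^ 2 := by ring
    omega

end Pool.Agent.Results.MP_9f93d5_co.LazyHamming
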